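import Pool.Agent.H64.Pent.Defs
import Pool.Agent.H5.Goddyn.Perm

set_option autoImplicit false

/-!
Numberings of the two circuits of a permutation graph by `ZMod n` and the permutation given by the
matching edges.
-/

namespace Pool.Agent.H61.Pent

open SimpleGraph Pool.Agent.H5.Goddyn Pool.Agent.H98.TC Pool.Agent.H64.Pent

lemma numb_of_enum {V : Type*} {G : SimpleGraph V} {C : G.Subgraph} {n : ℕ} {c : ℕ → V}
    (hc : IsEnum C n c) : Numb C (fun i : ZMod n => c i.val) := by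
  have hn3 := hc.three
  have : NeZero n := ⟨by omega⟩
  have hper : ∀ k j, c (j + k * n) = c j := by
    intro k
    induction k with
    | zero => intro j; simp
    | succ k ih => intro j; rw [Nat.succ_mul, ← Nat.add_assoc, hc.per, ih]
  have hmod : ∀ i, c (i % n) = c i := by
    intro i
    have h1 := hper (i / n) (i % n)
    rw [Nat.mul_comm, Nat.mod_add_div] at h1
    exact h1.symm
  refine ⟨?_, ?_, ?_⟩
  · intro i j hij
    exact ZMod.val_injective n (hc.inj (ZMod.val_lt i) (ZMod.val_lt j) hij)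
  · ext v
    rw [hc.verts v]
    constructor
    · rintro ⟨i, rfl⟩
      exact ⟨i.val, ZMod.val_lt i, rfl⟩
    · rintro ⟨i, hi, rfl⟩
      refine ⟨(i : ZMod n), ?_⟩
      show c ((i : ZMod n)).val = c i
      rw [ZMod.val_natCast, Nat.mod_eq_of_lt hi]
  · intro i t
    have hi : i = (((i - 1).val + 1 : ℕ) : ZMod n) := by
      rw [Nat.cast_add, ZMod.natCast_zmod_val, Nat.cast_one, sub_add_cancel]
    have h1 : c i.val = c ((i - 1).val + 1) := by
      conv_lhs => rw [hi]
      rw [ZMod.val_natCast, hmod]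
    have hi2 : i + 1 = (((i - 1).val + 2 : ℕ) : ZMod n) := by
      rw [Nat.cast_add, ZMod.natCast_zmod_val, Nat.cast_ofNat]
      ring
    have h2 : c (i + 1).val = c ((i - 1).val + 2) := by
      conv_lhs => rw [hi2]
      rw [ZMod.val_natCast, hmod]
    show C.Adj (c i.val) t ↔ t = c (i - 1).val ∨ t = c (i + 1).val
    rw [h1, h2]
    exact hc.adj (i - 1).val t

theorem exists_numb {V : Type*} [Finite V] (G : SimpleGraph V) (M C₁ C₂ : G.Subgraph)
    (h : IsPermutationGraph G M C₁ C₂) :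
    ∃ (n : ℕ) (x y : ZMod n → V) (p : Equiv.Perm (ZMod n)), 3 ≤ n ∧ Numb C₁ x ∧ Numb C₂ y ∧
      (∀ i, M.Adj (x i) (y (p i))) := by
  obtain ⟨n, c, a1, a2, a3, a4, a5⟩ := exists_enum h.circuit₁
  obtain ⟨n', c', b1, b2, b3, b4, b5⟩ := exists_enum h.circuit₂
  have hc : IsEnum C₁ n c := ⟨a1, a2, a3, a4, a5⟩
  have hc' : IsEnum C₂ n' c' := ⟨b1, b2, b3, b4, b5⟩
  obtain ⟨f, hf⟩ := exists_map h hc hc'
  have hbij : Function.Bijective f := ⟨map_injective h hc f hf, map_surjective h hc hc' f hf⟩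
  have hnn : n = n' := by simpa using Fintype.card_of_bijective hbij
  subst hnn
  have : NeZero n := ⟨by omega⟩
  have hval : ∀ i : ZMod n, (((f ⟨i.val, ZMod.val_lt i⟩ : Fin n) : ℕ) : ZMod n).val
      = (f ⟨i.val, ZMod.val_lt i⟩ : Fin n) := by
    intro i
    rw [ZMod.val_natCast, Nat.mod_eq_of_lt (f ⟨i.val, ZMod.val_lt i⟩).2]
  have hinj : Function.Injective
      (fun i : ZMod n => (((f ⟨i.val, ZMod.val_lt i⟩ : Fin n) : ℕ) : ZMod n)) := by
    intro i j hij
    have h1 : (((f ⟨i.val, ZMod.val_lt i⟩ : Fin n) : ℕ) : ZMod n)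
      = (((f ⟨j.val, ZMod.val_lt j⟩ : Fin n) : ℕ) : ZMod n) := hij
    have h2 := congrArg ZMod.val h1
    rw [hval, hval] at h2
    have h3 := hbij.1 (Fin.ext h2)
    exact ZMod.val_injective n (congrArg Fin.val h3)
  refine ⟨n, fun i => c i.val, fun i => c' i.val,
    Equiv.ofBijective _ (Finite.injective_iff_bijective.mp hinj), hc.three, numb_of_enum hc,
    numb_of_enum hc', ?_⟩
  intro i
  show M.Adj (c i.val) (c' (((f ⟨i.val, ZMod.val_lt i⟩ : Fin n) : ℕ) : ZMod n).val)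
  rw [hval]
  exact hf ⟨i.val, ZMod.val_lt i⟩

theorem numb_neg {V : Type*} {G : SimpleGraph V} {C : G.Subgraph} {n : ℕ} {x : ZMod n → V}
    (hx : Numb C x) : Numb C (fun i => x (-i)) := by
  refine ⟨hx.1.comp neg_injective, ?_, ?_⟩
  · rw [← hx.2.1]
    ext v
    constructor
    · rintro ⟨i, rfl⟩
      exact ⟨-i, rfl⟩
    · rintro ⟨i, rfl⟩
      exact ⟨-i, by simp⟩
  · intro i t
    show C.Adj (x (-i)) t ↔ t = x (-(i - 1)) ∨ t = x (-(i + 1))
    rw [hx.2.2 (-i) t, show -(i - 1) = -i + 1 by ring, show -(i + 1) = -i - 1 by ring]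
    exact or_comm

end Pool.Agent.H61.Pent
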